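import Pool.Agent.Run7.h357.OD.Inc

set_option autoImplicit false

/-!
# Ordered sets with twins

Two points of an ordered set are *twins* if they have the same strict upper bounds and the same
strict lower bounds. The classes of twins are the maximal order-autonomous antichains: every ordered
set arises from an ordered set without twins by replacing the points by antichains. The *size* of a
point is the number of its twins (the point itself included).

**Theorem.** Let `P` be an ordered set with at least 13 points, and let `Q` have the same deck.
(1) For every `s` the numbers of the points of size `s` of `P` and `Q` are equal; more precisely, a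
point of `P` and the corresponding point of `Q` have the same size.
(2) If `P` has a point of some size `s ≥ 2` and no point of size `s - 1`, then `P` and `Q` are
isomorphic. For example: every point of `P` has a twin; or there is a class of at least three twins
but no class of exactly two; or the points of an ordered set without twins (with any deck) are
replaced by antichains of even size.

The proof. By counting the pairs of incomparable points according to the number of the points which
distinguish them, the number of the pairs of twins is determined by the deck. In the card of a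
point `x` with twins no new pairs of twins arise, so that the number of twins of `x` is determined
by the card. The class of `x` has one point less in the card. An isomorphism of the card
`P - x` onto `Q - y` which does not map the class of `x` onto the class of `y` would map it onto a
class of size `s - 1` of `Q`, which does not exist. So it extends to an isomorphism.
-/

namespace Pool.Agent.Results.MP_1ad8b2_co.TwinClassSizes

/-- The bijection `σ` shows that `P` and `Q` have the same deck: `P` without `x` is isomorphic to
`Q` without `σ x` for every `x`. -/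
def SameDeck {P Q : Type} [PartialOrder P] [PartialOrder Q] (σ : P ≃ Q) : Prop :=
  ∀ x : P, Nonempty ({y : P // y ≠ x} ≃o {z : Q // z ≠ σ x})

/-- Twins: the points with the same strict lower bounds and strict upper bounds as `x`. -/
def twins {P : Type} [PartialOrder P] (x : P) : Set P :=
  {y | ∀ z, (z < x ↔ z < y) ∧ (x < z ↔ y < z)}

/-- The size of `x`: the number of its twins, including `x`. -/
noncomputable def size {P : Type} [PartialOrder P] (x : P) : ℕ := (twins x).ncard

theorem result (P Q : Type) [PartialOrder P] [PartialOrder Q] [Fintype P]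
    (hn : 13 ≤ Fintype.card P) (σ : P ≃ Q) (h : SameDeck σ) :
    (∀ x : P, size x = size (σ x)) ∧
    ((∃ x : P, 2 ≤ size x ∧ ∀ y : P, size y ≠ size x - 1) → Nonempty (P ≃o Q)) := by
  classical
  set r : P → P → Prop := fun x y => x ≤ y with hr
  set r' : P → P → Prop := fun x y => σ x ≤ σ y with hr'
  have key : ∀ i : P, ∃ π : Equiv.Perm P, π i = i ∧
      ∀ x y, x ≠ i → y ≠ i → (r' (π x) (π y) ↔ r x y) := by
    intro i
    obtain ⟨e⟩ := h i
    have hne : ∀ x (hx : x ≠ i), σ.symm (e ⟨x, hx⟩ : Q) ≠ i := by
      intro x hx h
      rw [Equiv.symm_apply_eq] at h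
      exact (e ⟨x, hx⟩).2 h
    set g : P → P := fun x => if hx : x = i then i else σ.symm (e ⟨x, hx⟩ : Q) with hg
    have gi : g i = i := dif_pos rfl
    have gn : ∀ x (hx : x ≠ i), g x = σ.symm (e ⟨x, hx⟩ : Q) := fun x hx => dif_neg hx
    have ginj : Function.Injective g := by
      intro x y hxy
      by_cases hx : x = i
      · by_cases hy : y = i
        · rw [hx, hy]
        · rw [hx, gi, gn y hy] at hxy
          exact (hne y hy hxy.symm).elim
      · by_cases hy : y = i
        · rw [hy, gi, gn x hx] at hxy
          exact (hne x hx hxy).elim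
        · rw [gn x hx, gn y hy] at hxy
          have := e.injective (Subtype.ext (σ.symm.injective hxy))
          exact congrArg Subtype.val this
    refine ⟨Equiv.ofBijective g (Finite.injective_iff_bijective.mp ginj), gi, ?_⟩
    intro x y hx hy
    show σ (g x) ≤ σ (g y) ↔ x ≤ y
    rw [gn x hx, gn y hy, Equiv.apply_symm_apply, Equiv.apply_symm_apply]
    exact e.map_rel_iff (a := ⟨x, hx⟩) (b := ⟨y, hy⟩)
  choose π hπ1 hπ2 using key
  have hS : Run7.h357.OD.Same r r' π := ⟨hπ1, hπ2⟩
  -- the two notions of twins
  have gen : ∀ {R : Type} [PartialOrder R] (τ : P ≃ R) (x y : P), x ≠ y →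
      (Run7.h357.OD.Inc.tw (fun a b : P => τ a ≤ τ b) x y ↔ τ y ∈ twins (τ x)) := by
    intro R _ τ x y hxy
    have hne : ∀ {a b : P}, a ≠ b → τ a ≠ τ b := fun hab e => hab (τ.injective e)
    constructor
    · rintro ⟨_, h2, h3⟩ z
      obtain ⟨z, rfl⟩ := τ.surjective z
      by_cases hzx : z = x
      · subst hzx
        have k1 : ¬ τ z < τ y := fun q => h2.1 q.le
        have k2 : ¬ τ y < τ z := fun q => h2.2 q.le
        have k3 := lt_irrefl (τ z)
        tauto
      · by_cases hzy : z = y
        · subst hzy
          have k1 : ¬ τ x < τ z := fun q => h2.1 q.le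
          have k2 : ¬ τ z < τ x := fun q => h2.2 q.le
          have k3 := lt_irrefl (τ z)
          tauto
        · have k := Run7.h357.OD.Inc.D_empty h3 hzx hzy
          rw [(hne hzx).le_iff_lt, (hne hzy).le_iff_lt, (hne hzx).symm.le_iff_lt,
            (hne hzy).symm.le_iff_lt] at k
          exact k
    · intro h
      refine ⟨hxy, ⟨?_, ?_⟩, ?_⟩
      · intro hle
        exact lt_irrefl _ ((h (τ x)).1.mpr (lt_of_le_of_ne hle (hne hxy)))
      · intro hle
        exact lt_irrefl _ ((h (τ x)).2.mpr (lt_of_le_of_ne hle (hne hxy.symm)))
      · rw [Finset.eq_empty_iff_forall_notMem]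
        intro z hz
        rw [Run7.h357.OD.mem_D] at hz
        obtain ⟨hzx, hzy, hz⟩ := hz
        apply hz
        show (τ z ≤ τ x ↔ τ z ≤ τ y) ∧ (τ x ≤ τ z ↔ τ y ≤ τ z)
        rw [(hne hzx).le_iff_lt, (hne hzy).le_iff_lt, (hne hzx).symm.le_iff_lt,
          (hne hzy).symm.le_iff_lt]
        exact h (τ z)
  have sizes : ∀ {R : Type} [PartialOrder R] (τ : P ≃ R) (x : P),
      size (τ x) = Run7.h357.OD.Inc.s (fun a b : P => τ a ≤ τ b) x + 1 := by
    intro R _ τ x
    have e : twins (τ x) = τ '' (insert x
        (Finset.univ.filter (fun v => Run7.h357.OD.Inc.tw (fun a b : P => τ a ≤ τ b) x v)) :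
          Finset P) := by
      ext z
      obtain ⟨z, rfl⟩ := τ.surjective z
      rw [Set.mem_image]
      constructor
      · intro hz
        refine ⟨z, ?_, rfl⟩
        rw [Finset.mem_coe, Finset.mem_insert, Finset.mem_filter]
        by_cases hzx : z = x
        · exact Or.inl hzx
        · exact Or.inr ⟨Finset.mem_univ _, (gen τ x z (Ne.symm hzx)).mpr hz⟩
      · rintro ⟨w, hw, e⟩
        rw [τ.injective.eq_iff] at e
        subst e
        rw [Finset.mem_coe, Finset.mem_insert, Finset.mem_filter] at hw
        rcases hw with rfl | ⟨_, hw⟩
        · exact fun z => ⟨Iff.rfl, Iff.rfl⟩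
        · exact (gen τ x w hw.1).mp hw
    unfold size
    rw [e, Set.ncard_image_of_injective _ τ.injective, Set.ncard_coe_finset,
      Finset.card_insert_of_notMem]
    · rfl
    · rw [Finset.mem_filter]
      exact fun q => q.2.1 rfl
  have s1 : ∀ x : P, size x = Run7.h357.OD.Inc.s r x + 1 := fun x => sizes (Equiv.refl P) x
  have s2 : ∀ x : P, size (σ x) = Run7.h357.OD.Inc.s r' x + 1 := fun x => sizes σ x
  refine ⟨fun x => ?_, ?_⟩
  · rw [s1, s2, Run7.h357.OD.Inc.s_eq hS hn x]
  · rintro ⟨x, hx, hgap⟩
    obtain ⟨ρ, hρ⟩ := Run7.h357.OD.Inc.main hS (fun x => le_refl x) (fun x => le_refl (σ x)) hn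
      ⟨x, by rw [s1] at hx; omega, fun y hy => hgap y (by rw [s1, s1]; omega)⟩
    exact ⟨⟨ρ.trans σ, fun {a b} => hρ a b⟩⟩

end Pool.Agent.Results.MP_1ad8b2_co.TwinClassSizes
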